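import Pool.Agent.H11.NS.Targets

/-!
Module EN of board ns_modules (MP_9b2842_al).
-/

set_option autoImplicit false

open Equiv (Perm)

namespace Pool.Agent.H33.NS

open Pool.Agent.H11.NS

variable {Ω : Type} [Fintype Ω] [DecidableEq Ω] {F W : Type} [Field F]
  [AddCommGroup W] [Module F W]

/-- fixed vectors of `x` are fixed by `k` -/
def TT (ρ : alternatingGroup Ω →* Module.End F W) (x k : alternatingGroup Ω) : Prop :=
  ∀ v, ρ x v = v → ρ k v = v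

theorem TT_inv (ρ : alternatingGroup Ω →* Module.End F W) {x k : alternatingGroup Ω}
    (h : TT ρ x k) : TT ρ x k⁻¹ := by
  intro v hv
  have h1 := h v hv
  have h2 : ρ k⁻¹ (ρ k v) = v := by
    rw [← Module.End.mul_apply, ← map_mul, inv_mul_cancel, map_one, Module.End.one_apply]
  rwa [h1] at h2

theorem TT_inv' (ρ : alternatingGroup Ω →* Module.End F W) {x k : alternatingGroup Ω}
    (h : TT ρ x k⁻¹) : TT ρ x k := by
  have := TT_inv ρ h
  rwa [inv_inv] at this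

theorem TT_conj (ρ : alternatingGroup Ω →* Module.End F W) {x k : alternatingGroup Ω}
    (h : TT ρ x k) (y : alternatingGroup Ω) : TT ρ (y * x * y⁻¹) (y * k * y⁻¹) := by
  intro v hv
  have h1 : ρ x (ρ y⁻¹ v) = ρ y⁻¹ v := by
    have h2 : ρ y⁻¹ (ρ (y * x * y⁻¹) v) = ρ x (ρ y⁻¹ v) := by
      rw [← Module.End.mul_apply, ← map_mul, ← Module.End.mul_apply, ← map_mul]
      congr 2
      group
    rw [← h2, hv]
  have h3 := h _ h1
  have h4 : ρ (y * k * y⁻¹) v = ρ y (ρ k (ρ y⁻¹ v)) := by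
    rw [← Module.End.mul_apply, ← map_mul, ← Module.End.mul_apply, ← map_mul, mul_assoc]
  rw [h4, h3, ← Module.End.mul_apply, ← map_mul, mul_inv_cancel, map_one, Module.End.one_apply]

/-- four pairwise disjoint three-cycles which are disjoint from `b`, with the property `TT` -/
structure Cfg (ρ : alternatingGroup Ω →* Module.End F W)
    (b x0 x1 x2 x3 : alternatingGroup Ω) : Prop where
  t0 : (x0 : Perm Ω).IsThreeCycle
  t1 : (x1 : Perm Ω).IsThreeCycle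
  t2 : (x2 : Perm Ω).IsThreeCycle
  t3 : (x3 : Perm Ω).IsThreeCycle
  d01 : Equiv.Perm.Disjoint (x0 : Perm Ω) (x1 : Perm Ω)
  d02 : Equiv.Perm.Disjoint (x0 : Perm Ω) (x2 : Perm Ω)
  d03 : Equiv.Perm.Disjoint (x0 : Perm Ω) (x3 : Perm Ω)
  d12 : Equiv.Perm.Disjoint (x1 : Perm Ω) (x2 : Perm Ω)
  d13 : Equiv.Perm.Disjoint (x1 : Perm Ω) (x3 : Perm Ω)
  d23 : Equiv.Perm.Disjoint (x2 : Perm Ω) (x3 : Perm Ω)
  b0 : Equiv.Perm.Disjoint (x0 : Perm Ω) (b : Perm Ω)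
  b1 : Equiv.Perm.Disjoint (x1 : Perm Ω) (b : Perm Ω)
  b2 : Equiv.Perm.Disjoint (x2 : Perm Ω) (b : Perm Ω)
  b3 : Equiv.Perm.Disjoint (x3 : Perm Ω) (b : Perm Ω)
  p2 : TT ρ (x0 * x1 * b) x2
  p3 : TT ρ (x0 * x1 * b) x3

theorem comm_of_disj {x y : alternatingGroup Ω}
    (h : Equiv.Perm.Disjoint (x : Perm Ω) (y : Perm Ω)) : x * y = y * x :=
  Subtype.ext h.commute

theorem Cfg.swap01 {ρ : alternatingGroup Ω →* Module.End F W}
    {b x0 x1 x2 x3 : alternatingGroup Ω} (h : Cfg ρ b x0 x1 x2 x3) : Cfg ρ b x1 x0 x2 x3 := by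
  have e := comm_of_disj h.d01
  exact ⟨h.t1, h.t0, h.t2, h.t3, h.d01.symm, h.d12, h.d13, h.d02, h.d03, h.d23, h.b1, h.b0, h.b2,
    h.b3, by rw [← e]; exact h.p2, by rw [← e]; exact h.p3⟩

theorem Cfg.swap23 {ρ : alternatingGroup Ω →* Module.End F W}
    {b x0 x1 x2 x3 : alternatingGroup Ω} (h : Cfg ρ b x0 x1 x2 x3) : Cfg ρ b x0 x1 x3 x2 :=
  ⟨h.t0, h.t1, h.t3, h.t2, h.d01, h.d03, h.d02, h.d13, h.d12, h.d23.symm, h.b0, h.b1, h.b3,
    h.b2, h.p3, h.p2⟩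

theorem conj_of_comm {G : Type*} [Group G] {f x : G} (h : f * x = x * f) : f * x * f⁻¹ = x := by
  rw [h, mul_inv_cancel_right]

theorem conj_mul' {G : Type*} [Group G] (f g x y z : G) (h1 : g * x * g⁻¹ = y)
    (h2 : f * y * f⁻¹ = z) : (f * g) * x * (f * g)⁻¹ = z := by
  rw [← h2, ← h1]
  group

theorem conj_three {G : Type*} [Group G] (y a b c a' b' c' : G) (h1 : y * a * y⁻¹ = a')
    (h2 : y * b * y⁻¹ = b') (h3 : y * c * y⁻¹ = c') :
    y * (a * b * c) * y⁻¹ = a' * b' * c' := by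
  rw [← h1, ← h2, ← h3]
  group

theorem conj_inv' {G : Type*} [Group G] {f x y : G} (h : f * x * f⁻¹ = y) :
    f * x⁻¹ * f⁻¹ = y⁻¹ := by
  rw [← h]
  group

theorem even_mul {f g : Perm Ω} (hf : Equiv.Perm.sign f = -1) (hg : Equiv.Perm.sign g = -1) :
    f * g ∈ alternatingGroup Ω := by
  rw [Equiv.Perm.mem_alternatingGroup, map_mul, hf, hg]
  rfl

theorem Cfg.inv0 (hSWY : T_SWY) {ρ : alternatingGroup Ω →* Module.End F W}
    {b x0 x1 x2 x3 : alternatingGroup Ω} (h : Cfg ρ b x0 x1 x2 x3) : Cfg ρ b x0⁻¹ x1 x2 x3 := by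
  obtain ⟨f0, s0, _, c0, k0⟩ := hSWY Ω (x0 : Perm Ω) h.t0
  obtain ⟨f2, s2, _, c2, k2⟩ := hSWY Ω (x2 : Perm Ω) h.t2
  have hy := even_mul s0 s2
  let y : alternatingGroup Ω := ⟨f0 * f2, hy⟩
  have e0 : y * x0 * y⁻¹ = x0⁻¹ := by
    apply Subtype.ext
    exact conj_mul' f0 f2 _ _ _ (conj_of_comm (k2 _ h.d02)) c0
  have e1 : y * x1 * y⁻¹ = x1 := by
    apply Subtype.ext
    exact conj_mul' f0 f2 _ _ _ (conj_of_comm (k2 _ h.d12)) (conj_of_comm (k0 _ h.d01.symm))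
  have eb : y * b * y⁻¹ = b := by
    apply Subtype.ext
    exact conj_mul' f0 f2 _ _ _ (conj_of_comm (k2 _ h.b2.symm)) (conj_of_comm (k0 _ h.b0.symm))
  have e2 : y * x2 * y⁻¹ = x2⁻¹ := by
    apply Subtype.ext
    exact conj_mul' f0 f2 _ _ _ c2 (conj_inv' (conj_of_comm (k0 _ h.d02.symm)))
  have e3 : y * x3 * y⁻¹ = x3 := by
    apply Subtype.ext
    exact conj_mul' f0 f2 _ _ _ (conj_of_comm (k2 _ h.d23.symm)) (conj_of_comm (k0 _ h.d03.symm))
  have ex := conj_three y x0 x1 b _ _ _ e0 e1 eb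
  have g2 := TT_conj ρ h.p2 y
  have g3 := TT_conj ρ h.p3 y
  rw [ex, e2] at g2
  rw [ex, e3] at g3
  exact ⟨h.t0.inv, h.t1, h.t2, h.t3, h.d01.inv_left, h.d02.inv_left, h.d03.inv_left, h.d12,
    h.d13, h.d23, h.b0.inv_left, h.b1, h.b2, h.b3, TT_inv' ρ g2, g3⟩

theorem Cfg.swap02 (hSWX : T_SWX) (hSWY : T_SWY) {ρ : alternatingGroup Ω →* Module.End F W}
    {b x0 x1 x2 x3 : alternatingGroup Ω} (h : Cfg ρ b x0 x1 x2 x3) : Cfg ρ b x2 x1 x0 x3 := by
  obtain ⟨w, sw, _, cw0, cw2, kw⟩ := hSWX Ω (x0 : Perm Ω) (x2 : Perm Ω) h.t0 h.t2 h.d02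
  obtain ⟨f3, s3, _, c3, k3⟩ := hSWY Ω (x3 : Perm Ω) h.t3
  have hy := even_mul sw s3
  let y : alternatingGroup Ω := ⟨w * f3, hy⟩
  have e0 : y * x0 * y⁻¹ = x2 := by
    apply Subtype.ext
    exact conj_mul' w f3 _ _ _ (conj_of_comm (k3 _ h.d03)) cw0
  have e2 : y * x2 * y⁻¹ = x0 := by
    apply Subtype.ext
    exact conj_mul' w f3 _ _ _ (conj_of_comm (k3 _ h.d23)) cw2
  have e1 : y * x1 * y⁻¹ = x1 := by
    apply Subtype.ext
    exact conj_mul' w f3 _ _ _ (conj_of_comm (k3 _ h.d13))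
      (conj_of_comm (kw _ h.d01.symm h.d12))
  have eb : y * b * y⁻¹ = b := by
    apply Subtype.ext
    exact conj_mul' w f3 _ _ _ (conj_of_comm (k3 _ h.b3.symm))
      (conj_of_comm (kw _ h.b0.symm h.b2.symm))
  have e3 : y * x3 * y⁻¹ = x3⁻¹ := by
    apply Subtype.ext
    exact conj_mul' w f3 _ _ _ c3
      (conj_inv' (conj_of_comm (kw _ h.d03.symm h.d23.symm)))
  have ex := conj_three y x0 x1 b _ _ _ e0 e1 eb
  have g2 := TT_conj ρ h.p2 y
  have g3 := TT_conj ρ h.p3 y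
  rw [ex, e2] at g2
  rw [ex, e3] at g3
  exact ⟨h.t2, h.t1, h.t0, h.t3, h.d12.symm, h.d02.symm, h.d23, h.d01.symm, h.d13, h.d03,
    h.b2, h.b1, h.b0, h.b3, g2, TT_inv' ρ g3⟩

theorem sq_eq_inv {x : alternatingGroup Ω} (h : (x : Perm Ω).IsThreeCycle) : x ^ 2 = x⁻¹ := by
  have h3 : (x : Perm Ω) ^ 3 = 1 := by
    have := pow_orderOf_eq_one (x : Perm Ω)
    rwa [h.orderOf] at this
  apply Subtype.ext
  rw [Subgroup.coe_pow, Subgroup.coe_inv, eq_inv_iff_mul_eq_one, ← pow_succ]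
  exact h3

theorem Cfg.pow (hSWY : T_SWY) {ρ : alternatingGroup Ω →* Module.End F W}
    {b x0 x1 x2 x3 : alternatingGroup Ω} (h : Cfg ρ b x0 x1 x2 x3) (α β : ℕ)
    (hα : α = 1 ∨ α = 2) (hβ : β = 1 ∨ β = 2) : Cfg ρ b (x0 ^ α) (x1 ^ β) x2 x3 := by
  have h1 : Cfg ρ b (x0 ^ α) x1 x2 x3 := by
    rcases hα with rfl | rfl
    · rwa [pow_one]
    · rw [sq_eq_inv h.t0]
      exact h.inv0 hSWY
  rcases hβ with rfl | rfl
  · rwa [pow_one]
  · rw [sq_eq_inv h.t1]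
    exact (h1.swap01.inv0 hSWY).swap01

theorem Cfg.all (hSWX : T_SWX) (hSWY : T_SWY) {ρ : alternatingGroup Ω →* Module.End F W}
    {b : alternatingGroup Ω} {e : Fin 4 → alternatingGroup Ω}
    (h : Cfg ρ b (e 0) (e 1) (e 2) (e 3)) (i j k : Fin 4) (hij : i ≠ j) (hki : k ≠ i)
    (hkj : k ≠ j) : ∃ l, Cfg ρ b (e i) (e j) (e k) (e l) := by
  have h01 := h
  have h21 := h.swap02 hSWX hSWY
  have h20 := h.swap01.swap02 hSWX hSWY
  have h31 := h.swap23.swap02 hSWX hSWY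
  have h30 := h.swap01.swap23.swap02 hSWX hSWY
  have h32 := h21.swap01.swap23.swap02 hSWX hSWY
  fin_cases i <;> fin_cases j <;> fin_cases k <;>
    first
    | exact absurd rfl hij
    | exact absurd rfl hki
    | exact absurd rfl hkj
    | exact ⟨0, h21.swap23⟩
    | exact ⟨1, h20.swap23⟩
    | exact ⟨0, h31.swap23⟩
    | exact ⟨1, h30.swap23⟩
    | exact ⟨0, h32⟩
    | exact ⟨1, h32.swap23⟩
    | exact ⟨3, h01⟩
    | exact ⟨2, h01.swap23⟩
    | exact ⟨3, h21⟩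
    | exact ⟨3, h20⟩
    | exact ⟨2, h31⟩
    | exact ⟨2, h30⟩
    | exact ⟨0, h21.swap23.swap01⟩
    | exact ⟨1, h20.swap23.swap01⟩
    | exact ⟨0, h31.swap23.swap01⟩
    | exact ⟨1, h30.swap23.swap01⟩
    | exact ⟨0, h32.swap01⟩
    | exact ⟨1, h32.swap23.swap01⟩
    | exact ⟨3, h01.swap01⟩
    | exact ⟨2, h01.swap23.swap01⟩
    | exact ⟨3, h21.swap01⟩
    | exact ⟨3, h20.swap01⟩
    | exact ⟨2, h31.swap01⟩
    | exact ⟨2, h30.swap01⟩

theorem pf_en : T_EJ → T_CF → T_SWX → T_SWY → T_EN := by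
  intro hEJ hCF hSWX hSWY Ω _ _ F W _ _ _ ω hω hω1 h3 ρ a ha hsupp d d' hd hd' hdd hda hd'a hTd
    hTd'
  have haP : (a : Perm Ω) ^ 3 = 1 := by
    rw [← Subgroup.coe_pow, ha, Subgroup.coe_one]
  obtain ⟨hc1, hc2, hc3⟩ := hCF Ω (a : Perm Ω) haP
  obtain ⟨c0, hc0m, c1, hc1m, hne⟩ := Finset.one_lt_card.mp
    (show 1 < (a : Perm Ω).cycleFactorsFinset.card by omega)
  obtain ⟨b, hb3, hbT, hbx, hbl⟩ := hc3 {c0, c1} (by
    intro c hc
    rw [Finset.mem_insert, Finset.mem_singleton] at hc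
    rcases hc with rfl | rfl
    · exact hc0m
    · exact hc1m)
  have hal : (a : Perm Ω) = c0 * c1 * b := by
    have := hbl [c0, c1] (by simp [hne]) (by simp)
    simpa using this
  have hbA : b ∈ alternatingGroup Ω := by
    rw [Equiv.Perm.mem_alternatingGroup]
    have h1 : Equiv.Perm.sign b ^ 3 = 1 := by rw [← map_pow, hb3, map_one]
    rcases Int.units_eq_one_or (Equiv.Perm.sign b) with h | h
    · exact h
    · rw [h] at h1
      exact absurd h1 (by decide)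
  have hc0A : c0 ∈ alternatingGroup Ω := (hc1 c0 hc0m).mem_alternatingGroup
  have hc1A : c1 ∈ alternatingGroup Ω := (hc1 c1 hc1m).mem_alternatingGroup
  have hsub : ∀ x c : Perm Ω, Equiv.Perm.Disjoint x (a : Perm Ω) →
      c ∈ (a : Perm Ω).cycleFactorsFinset → Equiv.Perm.Disjoint x c := by
    intro x c hx hc
    rw [Equiv.Perm.disjoint_iff_disjoint_support] at hx ⊢
    exact hx.mono_right (Equiv.Perm.mem_cycleFactorsFinset_support_le hc)
  let B : alternatingGroup Ω := ⟨b, hbA⟩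
  let e : Fin 4 → alternatingGroup Ω := ![⟨c0, hc0A⟩, ⟨c1, hc1A⟩, d, d']
  have haB : a = e 0 * e 1 * B := Subtype.ext hal
  have hcfg : Cfg ρ B (e 0) (e 1) (e 2) (e 3) := by
    refine ⟨hc1 c0 hc0m, hc1 c1 hc1m, hd, hd', ?_, ?_, ?_, ?_, ?_, hdd, ?_, ?_, ?_, ?_, ?_, ?_⟩
    · exact (a : Perm Ω).cycleFactorsFinset_pairwise_disjoint hc0m hc1m hne
    · exact (hsub _ _ hda hc0m).symm
    · exact (hsub _ _ hd'a hc0m).symm
    · exact (hsub _ _ hda hc1m).symm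
    · exact (hsub _ _ hd'a hc1m).symm
    · exact (hbT c0 (by simp)).symm
    · exact (hbT c1 (by simp)).symm
    · exact hbx _ hda
    · exact hbx _ hd'a
    · rw [← haB]
      exact hTd
    · rw [← haB]
      exact hTd'
  have h3c : ∀ i, ((e i : alternatingGroup Ω) : Perm Ω).IsThreeCycle := by
    intro i
    fin_cases i
    · exact hcfg.t0
    · exact hcfg.t1
    · exact hcfg.t2
    · exact hcfg.t3
  have hcube : ∀ i, e i ^ 3 = 1 := by
    intro i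
    apply Subtype.ext
    have := pow_orderOf_eq_one ((e i : alternatingGroup Ω) : Perm Ω)
    rw [(h3c i).orderOf] at this
    rw [Subgroup.coe_pow, Subgroup.coe_one]
    exact this
  have hcomm : ∀ i j, e i * e j = e j * e i := by
    intro i j
    by_cases hij : i = j
    · rw [hij]
    · obtain ⟨k, hk1, hk2⟩ : ∃ k : Fin 4, k ≠ i ∧ k ≠ j := by
        revert i j
        decide
      obtain ⟨l, hl⟩ := hcfg.all hSWX hSWY i j k hij hk1 hk2
      exact comm_of_disj hl.d01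
  have hcommb : ∀ i, e i * B = B * e i := by
    intro i
    fin_cases i
    · exact comm_of_disj hcfg.b0
    · exact comm_of_disj hcfg.b1
    · exact comm_of_disj hcfg.b2
    · exact comm_of_disj hcfg.b3
  have hfin := hEJ F W ω hω hω1 h3 (fun i => ρ (e i)) (ρ B)
    (fun i => by
      change ρ (e i) ^ 3 = 1
      rw [← map_pow, hcube i, map_one])
    (by
      have : B ^ 3 = 1 := Subtype.ext hb3
      rw [← map_pow, this, map_one])
    (fun i j => by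
      change ρ (e i) * ρ (e j) = ρ (e j) * ρ (e i)
      rw [← map_mul, ← map_mul, hcomm])
    (fun i => by
      change ρ (e i) * ρ B = ρ B * ρ (e i)
      rw [← map_mul, ← map_mul, hcommb])
    (by
      intro i j k hij hki hkj α β hα hβ v hv
      obtain ⟨l, hl⟩ := hcfg.all hSWX hSWY i j k hij hki hkj
      have h1 := (hl.pow hSWY α β hα hβ).p2 v
      apply h1
      rw [map_mul, map_mul, map_pow, map_pow, Module.End.mul_apply, Module.End.mul_apply]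
      exact hv)
  exact ⟨e 0, e 1, hcfg.t0, hcfg.t1, hcfg.d01, hfin⟩

end Pool.Agent.H33.NS
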